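import Pool.Agent.MP_dc39f7_co.Proof

set_option autoImplicit false

namespace Pool.Agent.Results.MP_dc39f7_co.NoPolynomialBound

open Pool.Agent.MP_dc39f7_co

/-- No polynomial bounds the finite order chromatic numbers of edge-ordered paths: for every real
polynomial `p` there are `k ≥ 2` and an edge ordering `P` of the path with `k` vertices whose order
chromatic number is finite and larger than `p k`. -/
theorem result : ∀ p : Polynomial ℝ, ∃ k : ℕ, 2 ≤ k ∧
    ∃ P : LinearOrder (SimpleGraph.pathGraph k).edgeSet, ∃ c : ℕ,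
      orderChromaticNumber (SimpleGraph.pathGraph k) P = c ∧ p.eval (k : ℝ) < c := by
  intro p
  obtain ⟨n, hn, hp⟩ := exists_exp_gt p
  obtain ⟨c, hc, hlt⟩ := main_bounds n hn
  refine ⟨2 * (2 * n + 1) + 4, by omega, pathOrder (2 * n + 1), c, hc, hp.trans ?_⟩
  exact_mod_cast hlt

end Pool.Agent.Results.MP_dc39f7_co.NoPolynomialBound
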